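import Pool.Agent.W559.Wr.Stm

set_option autoImplicit false

universe u

open IntermediateField Pool.Agent.W559.Wr

namespace Pool.Agent.W230.WR

section basic

variable {k : Type u} [Field k]

/-- Corestriction to an intermediate field. -/
def cod {K M : Type u} [Field K] [Algebra k K] [Field M] [Algebra k M] (e : K →ₐ[k] M)
    (F : IntermediateField k M) (h : ∀ x, e x ∈ F) : K →ₐ[k] F :=
  e.codRestrict F.toSubalgebra h

lemma mem_fr {K M : Type u} [Field K] [Algebra k K] [Field M] [Algebra k M] (e : K →ₐ[k] M)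
    (x : K) : e x ∈ e.fieldRange := AlgHom.mem_fieldRange.2 ⟨x, rfl⟩

lemma eqOn_iSup {K A M : Type u} [Field K] [Algebra k K] [Field A] [Algebra k A] [Field M]
    [Algebra k M] {ι : Type} (e : ι → K →ₐ[k] A) (φ ψ : A →ₐ[k] M)
    (h : ∀ i x, φ (e i x) = ψ (e i x)) {a : A} (ha : a ∈ ⨆ i, (e i).fieldRange) : φ a = ψ a := by
  let S : IntermediateField k A := (AlgHom.equalizer φ ψ).toIntermediateField (fun x hx => by
    rw [AlgHom.mem_equalizer] at hx ⊢
    rw [map_inv₀, map_inv₀, hx])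
  have h1 : (⨆ i, (e i).fieldRange) ≤ S := by
    refine iSup_le fun i => ?_
    intro y hy
    obtain ⟨x, rfl⟩ := AlgHom.mem_fieldRange.1 hy
    exact h i x
  exact h1 ha

lemma genext {K A M : Type u} [Field K] [Algebra k K] [Field A] [Algebra k A] [Field M]
    [Algebra k M] {ι : Type} (e : ι → K →ₐ[k] A) (hgen : ⨆ i, (e i).fieldRange = ⊤)
    (φ ψ : A →ₐ[k] M) (h : ∀ i x, φ (e i x) = ψ (e i x)) (a : A) : φ a = ψ a :=
  eqOn_iSup e φ ψ h (by rw [hgen]; exact IntermediateField.mem_top)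

lemma gen_cod {K M : Type u} [Field K] [Algebra k K] [Field M] [Algebra k M] {ι : Type}
    (e : ι → K →ₐ[k] M) (F : IntermediateField k M) (h : ∀ i x, e i x ∈ F)
    (hF : ⨆ i, (e i).fieldRange = F) : ⨆ i, (cod (e i) F (h i)).fieldRange = ⊤ := by
  apply IntermediateField.map_injective F.val
  rw [IntermediateField.map_iSup, ← AlgHom.fieldRange_eq_map, IntermediateField.fieldRange_val]
  conv_rhs => rw [← hF]
  refine iSup_congr fun i => ?_
  rw [AlgHom.map_fieldRange]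
  rfl

lemma mulM_comp {M N : Type u} [Field M] [Algebra k M] [Field N] [Algebra k N] {J : Type}
    [Fintype J] {K : J → Type u} [∀ j, Field (K j)] [∀ j, Algebra k (K j)] (e : ∀ j, K j →ₐ[k] M)
    (f : M →ₐ[k] N) : mulM (fun j => f.comp (e j)) = f.toLinearMap ∘ₗ mulM e := by
  apply PiTensorProduct.ext
  ext x
  simp [mulM]

lemma LDis_of_comp {M N : Type u} [Field M] [Algebra k M] [Field N] [Algebra k N] {J : Type}
    [Fintype J] {K : J → Type u} [∀ j, Field (K j)] [∀ j, Algebra k (K j)] (e : ∀ j, K j →ₐ[k] M)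
    (f : M →ₐ[k] N) (h : LDis fun j => f.comp (e j)) : LDis e := by
  unfold LDis at h ⊢
  rw [mulM_comp] at h
  exact Function.Injective.of_comp (f := f.toLinearMap) h

lemma finite_perm {K M : Type u} [Field K] [Algebra k K] [Field M] [Algebra k M] {ι : Type}
    [Finite ι] (e : ι → K →ₐ[k] M) (hgen : ⨆ i, (e i).fieldRange = ⊤)
    (P : Subgroup (Equiv.Perm ι)) : Finite (permGrp e P) := by
  refine Finite.of_injective (fun σ : permGrp e P => σ.2.choose) ?_
  intro σ τ h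
  have h1 := σ.2.choose_spec.2
  have h2 := τ.2.choose_spec.2
  dsimp only at h
  apply Subtype.ext
  apply AlgEquiv.ext
  intro a
  refine genext e hgen (σ.1 : M →ₐ[k] M) (τ.1 : M →ₐ[k] M) (fun i x => ?_) a
  change σ.1 (e i x) = τ.1 (e i x)
  rw [h1, h2, h]

end basic

/-- The action of a permutation on the block `j`. -/
def blk {ι ι' : Type} [DecidableEq ι'] (j : ι') : Equiv.Perm ι →* Equiv.Perm (ι × ι') where
  toFun g := Equiv.prodCongrLeft (fun b => if b = j then g else 1)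
  map_one' := by
    ext p <;> simp
  map_mul' g g' := by
    ext p
    · by_cases h : p.2 = j <;> simp [h]
    · simp

lemma blk_apply {ι ι' : Type} [DecidableEq ι'] (j : ι') (g : Equiv.Perm ι) (i : ι) (b : ι') :
    blk j g (i, b) = ((if b = j then g else 1) i, b) := rfl

section key

variable {k : Type u} [Field k] {ι ι' : Type} [Fintype ι] [Fintype ι'] [DecidableEq ι']
  {P : Subgroup (Equiv.Perm ι)} {P' : Subgroup (Equiv.Perm ι')}
  {K M : Type u} [Field K] [Algebra k K] [Field M] [Algebra k M]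
  {e : ι × ι' → K →ₐ[k] M} {L0 : IntermediateField k M} {s : ι' → M ≃ₐ[k] M}
  {e0 : ι → K →ₐ[k] L0}

/-- The comparison lemma. -/
lemma K1 (hs : ∀ j i x, s j (e0 i x : M) = e (i, j) x) (hgen0 : ⨆ i, (e0 i).fieldRange = ⊤)
    (σ : M ≃ₐ[k] M) (j j' : ι') (τ : L0 ≃ₐ[k] L0) (g : Equiv.Perm ι)
    (hσ : ∀ i x, σ (e (i, j) x) = e (g i, j') x) (hτ : ∀ i x, τ (e0 i x) = e0 (g i) x)
    (w : L0) : σ (s j w.1) = s j' (τ w).1 := by
  refine genext e0 hgen0 ((σ : M →ₐ[k] M).comp ((s j : M →ₐ[k] M).comp L0.val))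
    (((s j' : M →ₐ[k] M).comp L0.val).comp (τ : L0 →ₐ[k] L0)) (fun i x => ?_) w
  change σ (s j (e0 i x).1) = s j' (τ (e0 i x)).1
  rw [hs, hσ, hτ]
  exact (hs j' (g i) x).symm

variable (hgen : ⨆ i, (e i).fieldRange = ⊤)
  (hlift : ∀ g : Equiv.Perm (ι × ι'), ∃ σ : M ≃ₐ[k] M, ∀ p x, σ (e p x) = e (g p) x)

include hgen hlift in
lemma memM (hGal : GalStm.{u}) (hs : ∀ j i x, s j (e0 i x : M) = e (i, j) x)
    (hgen0 : ⨆ i, (e0 i).fieldRange = ⊤)
    (hsur : ∀ j, ∀ z ∈ (⨆ i, (e (i, j)).fieldRange : IntermediateField k M),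
      ∃ w : L0, s j w.1 = z)
    (M' : IntermediateField k M)
    (hM' : ∀ j (w : L0), w ∈ fixedField (permGrp e0 P) → s j w.1 ∈ M')
    (y : M) (hy : ∀ f ∈ permGrp e (wrGrp P P'), f y = y) : y ∈ M' := by
  have hmemL : ∀ i j x, e (i, j) x ∈ (⨆ i, (e (i, j)).fieldRange : IntermediateField k M) :=
    fun i j x => (le_iSup (fun i => (e (i, j)).fieldRange) i) (mem_fr (e (i, j)) x)
  have hfin : ∀ j, Finite (permGrp e (P.map (blk (ι := ι) j))) := fun j => finite_perm e hgen _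
  have hG := hGal k M ι' (fun j => permGrp e (P.map (blk j)))
    (fun j => ⨆ i, (e (i, j)).fieldRange) (by
    rintro j σ ⟨_, ⟨g, hg, rfl⟩, h⟩ x hx
    have h1 : (⨆ i, (e (i, j)).fieldRange : IntermediateField k M) ≤
        (⨆ i, (e (i, j)).fieldRange : IntermediateField k M).comap (σ : M →ₐ[k] M) := by
      refine iSup_le fun i => ?_
      intro y hy
      obtain ⟨x, rfl⟩ := AlgHom.mem_fieldRange.1 hy
      change σ (e (i, j) x) ∈ (⨆ i, (e (i, j)).fieldRange : IntermediateField k M)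
      rw [h, blk_apply]
      exact hmemL _ j x
    exact h1 hx) (by
    rintro j j' hjj' σ ⟨_, ⟨g, hg, rfl⟩, h⟩ x hx
    refine eqOn_iSup (fun i => e (i, j')) (σ : M →ₐ[k] M) (AlgHom.id k M)
      (fun i x => ?_) hx
    change σ (e (i, j') x) = e (i, j') x
    rw [h, blk_apply, if_neg (Ne.symm hjj')]
    rfl) (by
    rw [eq_top_iff, ← hgen]
    refine iSup_le fun p => ?_
    exact le_trans (le_iSup (fun i => (e (i, p.2)).fieldRange) p.1)
      (le_iSup (fun j => ⨆ i, (e (i, j)).fieldRange) p.2))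
  have hy1 : y ∈ fixedField (⨆ j, permGrp e (P.map (blk (ι := ι) j))) := by
    rw [mem_fixedField_iff]
    intro f hf
    refine hy f ?_
    have h1 : (⨆ j, permGrp e (P.map (blk (ι := ι) j))) ≤ permGrp e (wrGrp P P') := by
      refine iSup_le fun j => ?_
      rintro σ ⟨_, ⟨g, hg, rfl⟩, h⟩
      refine ⟨blk j g, ⟨1, P'.one_mem, fun b => if b = j then g else 1, fun b => ?_,
        fun i b => rfl⟩, h⟩
      show (if b = j then g else 1) ∈ P
      by_cases hb : b = j
      · rw [if_pos hb]; exact hg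
      · rw [if_neg hb]; exact P.one_mem
    exact h1 hf
  rw [hG] at hy1
  have h1 : (⨆ j, (⨆ i, (e (i, j)).fieldRange : IntermediateField k M) ⊓
      fixedField (permGrp e (P.map (blk (ι := ι) j)))) ≤ M' := by
    refine iSup_le fun j => ?_
    rintro z ⟨hz1, hz2⟩
    obtain ⟨w, rfl⟩ := hsur j z hz1
    have hz3 : ∀ f ∈ permGrp e (P.map (blk (ι := ι) j)), f (s j w.1) = s j w.1 :=
      (mem_fixedField_iff _ _).1 hz2
    refine hM' j w ?_
    rw [mem_fixedField_iff]
    rintro τ ⟨g, hg, hτ⟩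
    obtain ⟨σ, hσ⟩ := hlift (blk j g)
    have h2 := hz3 σ ⟨blk j g, ⟨g, hg, rfl⟩, hσ⟩
    have h3 := K1 hs hgen0 σ j j τ g (fun i x => by
      rw [hσ, blk_apply, if_pos rfl]) hτ w
    rw [h2] at h3
    exact Subtype.ext ((s j).injective h3.symm)
  exact h1 hy1

variable {M' : IntermediateField k M} {E' : ι' → (fixedField (permGrp e0 P)) →ₐ[k] M'}

include hlift in
lemma fixA (hs : ∀ j i x, s j (e0 i x : M) = e (i, j) x)
    (hgen0 : ⨆ i, (e0 i).fieldRange = ⊤)
    (hE' : ∀ j x, (E' j x : M) = s j x.1.1) (hgen' : ⨆ j, (E' j).fieldRange = ⊤)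
    (y : M') (hy : ∀ f ∈ permGrp e (wrGrp P P'), f y.1 = y.1)
    (τ : M' ≃ₐ[k] M') (hτ : τ ∈ permGrp E' P') : τ y = y := by
  obtain ⟨h, hh, hτ⟩ := hτ
  obtain ⟨σ, hσ⟩ := hlift (Equiv.prodCongr (Equiv.refl ι) h)
  have h1 : σ y.1 = y.1 :=
    hy σ ⟨_, ⟨h, hh, fun _ => 1, fun _ => P.one_mem, fun i j => rfl⟩, hσ⟩
  have h2 := genext E' hgen' ((σ : M →ₐ[k] M).comp M'.val)
    (M'.val.comp (τ : M' →ₐ[k] M')) (fun j x => by
      change σ (E' j x).1 = (τ (E' j x)).1
      rw [hτ, hE', hE']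
      exact K1 hs hgen0 σ j (h j) AlgEquiv.refl 1 (fun i x => hσ (i, j) x) (fun i x => rfl) x.1)
    y
  apply Subtype.ext
  change σ y.1 = (τ y).1 at h2
  rw [← h2, h1]

lemma fixB (hs : ∀ j i x, s j (e0 i x : M) = e (i, j) x)
    (hgen0 : ⨆ i, (e0 i).fieldRange = ⊤)
    (hlift0 : ∀ g : Equiv.Perm ι, ∃ σ : L0 ≃ₐ[k] L0, ∀ p x, σ (e0 p x) = e0 (g p) x)
    (hE' : ∀ j x, (E' j x : M) = s j x.1.1) (hgen' : ⨆ j, (E' j).fieldRange = ⊤)
    (hlift' : ∀ g : Equiv.Perm ι', ∃ σ : M' ≃ₐ[k] M', ∀ p x, σ (E' p x) = E' (g p) x)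
    (y : M') (hy : ∀ f ∈ permGrp E' P', f y = y)
    (σ : M ≃ₐ[k] M) (hσ : σ ∈ permGrp e (wrGrp P P')) : σ y.1 = y.1 := by
  obtain ⟨f, ⟨h, hh, g, hg, hf⟩, hσ⟩ := hσ
  obtain ⟨τ, hτ⟩ := hlift' h
  have h1 := hy τ ⟨h, hh, hτ⟩
  have h2 := genext E' hgen' ((σ : M →ₐ[k] M).comp M'.val)
    (M'.val.comp (τ : M' →ₐ[k] M')) (fun j x => by
      change σ (E' j x).1 = (τ (E' j x)).1
      rw [hτ, hE', hE']
      obtain ⟨τj, hτj⟩ := hlift0 (g j)
      have h3 := K1 hs hgen0 σ j (h j) τj (g j) (fun i x => by rw [hσ, hf]) hτj x.1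
      have h4 : τj x.1 = x.1 := (mem_fixedField_iff (permGrp e0 P) x.1).1 x.2 τj
        ⟨g j, hg j, hτj⟩
      rw [h4] at h3
      exact h3)
    y
  change σ y.1 = (τ y).1 at h2
  rw [h2, h1]

end key

/-- The case of an empty set of blocks. -/
lemma wrEmpty (hRes : ResStm.{u}) (k : Type u) [Field k] (ι ι' : Type) [Fintype ι] [Fintype ι']
    (P : Subgroup (Equiv.Perm ι)) (P' : Subgroup (Equiv.Perm ι')) (hP' : QQ k ι' P')
    (K M : Type u) [Field K] [Algebra k K] [Field M] [Algebra k M] (e : ι × ι' → K →ₐ[k] M)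
    (hld : LDis e) (hgen : ⨆ i, (e i).fieldRange = ⊤) (hK : SPM k K) (hι : IsEmpty ι') :
    SPM k (fixedField (permGrp e (wrGrp P P'))) := by
  let e' : ι' → K →ₐ[k] M := fun j => hι.elim j
  have h1 : LDis e' := by
    have h := hRes k M (ι × ι') ι' (fun _ => K) e hld (fun j => hι.elim j)
      (fun j => hι.elim j) (fun _ => K) (fun j => AlgHom.id k K)
    have he : e' = fun j => (e (hι.elim j)).comp (AlgHom.id k K) := funext fun j => hι.elim j
    rw [he]
    exact h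
  have hbt : (⊥ : IntermediateField k M) = ⊤ := by
    rw [← hgen, iSup_of_empty]
  have h2 : ⨆ i, (e' i).fieldRange = ⊤ := by
    rw [iSup_of_empty, hbt]
  have h3 := hP' K M e' h1 h2 hK
  have hsub : Subsingleton (IntermediateField k M) := subsingleton_of_bot_eq_top hbt
  have h4 : fixedField (permGrp e (wrGrp P P')) = fixedField (permGrp e' P') :=
    Subsingleton.elim _ _
  rw [h4]
  exact h3

/-- The nonempty case with all data given. -/
lemma wrMain (hLift : LiftStm.{u}) (hGal : GalStm.{u}) (hIso : IsoStm.{u})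
    {k : Type u} [Field k] {ι ι' : Type} [Fintype ι] [Fintype ι'] [DecidableEq ι']
    {P : Subgroup (Equiv.Perm ι)} {P' : Subgroup (Equiv.Perm ι')}
    {K M : Type u} [Field K] [Algebra k K] [Field M] [Algebra k M]
    {e : ι × ι' → K →ₐ[k] M} {L0 : IntermediateField k M} {s : ι' → M ≃ₐ[k] M}
    {e0 : ι → K →ₐ[k] L0}
    (hld : LDis e) (hgen : ⨆ i, (e i).fieldRange = ⊤)
    (hs : ∀ j i x, s j (e0 i x : M) = e (i, j) x)
    (hsur : ∀ j, ∀ z ∈ (⨆ i, (e (i, j)).fieldRange : IntermediateField k M),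
      ∃ w : L0, s j w.1 = z)
    (hld0 : LDis e0) (hgen0 : ⨆ i, (e0 i).fieldRange = ⊤)
    (M' : IntermediateField k M) (E' : ι' → (fixedField (permGrp e0 P)) →ₐ[k] M')
    (hE' : ∀ j x, (E' j x : M) = s j x.1.1) (hgen' : ⨆ j, (E' j).fieldRange = ⊤)
    (hld' : LDis E') (hS : SPM k (fixedField (permGrp E' P'))) :
    SPM k (fixedField (permGrp e (wrGrp P P'))) := by
  have key : fixedField (permGrp e (wrGrp P P')) =
      IntermediateField.lift (fixedField (permGrp E' P')) := by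
    apply le_antisymm
    · intro y hy
      rw [mem_fixedField_iff] at hy
      have hy2 : y ∈ M' := memM hgen (hLift k K M (ι × ι') e hld hgen) hGal hs hgen0 hsur M'
        (fun j w hw => by rw [← hE' j ⟨w, hw⟩]; exact (E' j ⟨w, hw⟩).2) y hy
      refine (IntermediateField.mem_lift (⟨y, hy2⟩ : M')).2 ?_
      rw [mem_fixedField_iff]
      exact fixA (hLift k K M (ι × ι') e hld hgen) hs hgen0 hE' hgen' ⟨y, hy2⟩ hy
    · intro y hy
      have hy2 : y ∈ M' := IntermediateField.lift_le _ hy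
      have hy3 := (IntermediateField.mem_lift (⟨y, hy2⟩ : M')).1 hy
      rw [mem_fixedField_iff] at hy3 ⊢
      exact fixB hs hgen0 (hLift k K L0 ι e0 hld0 hgen0) hE' hgen'
        (hLift k _ M' ι' E' hld' hgen') ⟨y, hy2⟩ hy3
  rw [key]
  exact hIso k _ _ (IntermediateField.liftAlgEquiv _) hS

theorem wrStm (hLift : LiftStm.{u}) (hGroup : GroupStm.{u}) (hRes : ResStm.{u})
    (hGal : GalStm.{u}) (hIso : IsoStm.{u}) : WrStm.{u} := by
  intro k _ ι ι' _ _ P P' hP hP' K M _ _ _ _ e hld hgen hK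
  classical
  rcases isEmpty_or_nonempty ι' with hι | ⟨⟨j0⟩⟩
  · exact wrEmpty hRes k ι ι' P P' hP' K M e hld hgen hK hι
  have hmemL : ∀ i j x, e (i, j) x ∈ (⨆ i, (e (i, j)).fieldRange : IntermediateField k M) :=
    fun i j x => (le_iSup (fun i => (e (i, j)).fieldRange) i) (mem_fr (e (i, j)) x)
  have hs : ∀ j, ∃ s : M ≃ₐ[k] M, ∀ i x, s (e (i, j0) x) = e (i, j) x := by
    intro j
    obtain ⟨s, hs⟩ := hLift k K M (ι × ι') e hld hgen
      (Equiv.prodCongr (Equiv.refl ι) (Equiv.swap j0 j))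
    refine ⟨s, fun i x => ?_⟩
    rw [hs]
    simp
  choose s hs using hs
  obtain ⟨L0, hL0⟩ : ∃ L0 : IntermediateField k M, L0 = ⨆ i, (e (i, j0)).fieldRange := ⟨_, rfl⟩
  have hmem0 : ∀ i x, e (i, j0) x ∈ L0 := fun i x => by rw [hL0]; exact hmemL i j0 x
  obtain ⟨e0, he0⟩ : ∃ e0 : ι → K →ₐ[k] L0, ∀ i, L0.val.comp (e0 i) = e (i, j0) :=
    ⟨fun i => cod (e (i, j0)) L0 (hmem0 i), fun i => rfl⟩
  have he0' : ∀ i x, (e0 i x : M) = e (i, j0) x := fun i x => by
    rw [← he0 i]; rfl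
  have hld0 : LDis e0 := by
    apply LDis_of_comp e0 L0.val
    simp only [he0]
    exact hRes k M (ι × ι') ι (fun _ => K) e hld (fun i => (i, j0))
      (fun i i' h => congrArg Prod.fst h) (fun _ => K) (fun _ => AlgHom.id k K)
  have hgen0 : ⨆ i, (e0 i).fieldRange = ⊤ := by
    apply IntermediateField.map_injective L0.val
    rw [IntermediateField.map_iSup, ← AlgHom.fieldRange_eq_map, IntermediateField.fieldRange_val]
    simp only [AlgHom.map_fieldRange, he0]
    exact hL0.symm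
  have hsx : ∀ j i x, s j (e0 i x : M) = e (i, j) x := fun j i x => by rw [he0', hs]
  have hEmem : ∀ j (x : L0), s j x.1 ∈ (⨆ i, (e (i, j)).fieldRange : IntermediateField k M) := by
    intro j x
    have h1 : L0 ≤ (⨆ i, (e (i, j)).fieldRange : IntermediateField k M).comap
        (s j : M →ₐ[k] M) := by
      rw [hL0]
      refine iSup_le fun i => ?_
      intro y hy
      obtain ⟨x, rfl⟩ := AlgHom.mem_fieldRange.1 hy
      change s j (e (i, j0) x) ∈ (⨆ i, (e (i, j)).fieldRange : IntermediateField k M)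
      rw [hs]
      exact hmemL i j x
    exact h1 x.2
  have hsur : ∀ j, ∀ z ∈ (⨆ i, (e (i, j)).fieldRange : IntermediateField k M),
      ∃ w : L0, s j w.1 = z := by
    intro j z hz
    have h1 : (⨆ i, (e (i, j)).fieldRange : IntermediateField k M) ≤
        L0.map (s j : M →ₐ[k] M) := by
      refine iSup_le fun i => ?_
      intro y hy
      obtain ⟨x, rfl⟩ := AlgHom.mem_fieldRange.1 hy
      exact ⟨e (i, j0) x, hmem0 i x, hs j i x⟩
    obtain ⟨w, hw, hwz⟩ := h1 hz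
    exact ⟨⟨w, hw⟩, hwz⟩
  have hX : SPM k (fixedField (permGrp e0 P)) := hP K L0 e0 hld0 hgen0 hK
  obtain ⟨F, hF⟩ : ∃ F : ι' → (fixedField (permGrp e0 P)) →ₐ[k] M,
      ∀ j x, F j x = s j x.1.1 :=
    ⟨fun j => ((s j : M →ₐ[k] M).comp L0.val).comp (fixedField (permGrp e0 P)).val,
      fun j x => rfl⟩
  have hldF : LDis F := by
    have h1 := hGroup k M (ι × ι') ι' (fun _ => K) e hld Prod.snd
    have h2 : ∀ j x, F j x ∈
        (⨆ i : {i : ι × ι' // i.2 = j}, (e i).fieldRange : IntermediateField k M) := by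
      intro j x
      have h3 : (⨆ i, (e (i, j)).fieldRange : IntermediateField k M) ≤
          (⨆ i : {i : ι × ι' // i.2 = j}, (e i).fieldRange : IntermediateField k M) := by
        refine iSup_le fun i => ?_
        exact le_iSup (fun p : {i : ι × ι' // i.2 = j} => (e p.1).fieldRange) ⟨(i, j), rfl⟩
      rw [hF]
      exact h3 (hEmem j x.1)
    exact hRes k M ι' ι' (fun j => ↥(⨆ i : {i : ι × ι' // i.2 = j}, (e i).fieldRange :
      IntermediateField k M)) _ h1 id Function.injective_id (fun _ => _)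
      (fun j => cod (F j) _ (h2 j))
  obtain ⟨M', hM'⟩ : ∃ M' : IntermediateField k M, M' = ⨆ j, (F j).fieldRange := ⟨_, rfl⟩
  have hFM : ∀ j x, F j x ∈ M' := fun j x => by
    rw [hM']; exact (le_iSup (fun j => (F j).fieldRange) j) (mem_fr (F j) x)
  obtain ⟨E', hE'⟩ : ∃ E' : ι' → (fixedField (permGrp e0 P)) →ₐ[k] M',
      ∀ j, M'.val.comp (E' j) = F j :=
    ⟨fun j => cod (F j) M' (hFM j), fun j => rfl⟩
  have hld' : LDis E' := by
    apply LDis_of_comp E' M'.val
    simp only [hE']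
    exact hldF
  have hgen' : ⨆ j, (E' j).fieldRange = ⊤ := by
    apply IntermediateField.map_injective M'.val
    rw [IntermediateField.map_iSup, ← AlgHom.fieldRange_eq_map, IntermediateField.fieldRange_val]
    simp only [AlgHom.map_fieldRange, hE']
    exact hM'.symm
  have hE'' : ∀ j x, (E' j x : M) = s j x.1.1 := fun j x => by
    rw [← hF j x, ← hE' j]; rfl
  exact wrMain hLift hGal hIso hld hgen hsx hsur hld0 hgen0 M' E' hE'' hgen' hld'
    (hP' _ M' E' hld' hgen' hX)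

end Pool.Agent.W230.WR
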